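import Mathlib
import Pool.Agent.Helper31.GZ.Defs
import Pool.Agent.Helper31.GZ.Final

set_option autoImplicit false

/-!
# A counterexample to the generalized Zeeman collapsing conjecture

`K` consists of the boundaries of four tetrahedra in space, strung along the `x`-axis over the
intervals `[-5,-3]`, `[-3,-1]`, `[-1,1]`, `[2,4]`, together with the segment `[-5,4]` of the axis;
`L` is built in the same way over the intervals `[-5,-3]`, `[-3,-1]`, `[0,2]`, `[2,4]`.
-/

open Set Pool.Agent.Helper31.GZ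

namespace Pool.Agent.Results.MP_e11f15_gt.ZeemanDisproof

/-- There are compact connected two-dimensional polyhedra `K` and `L` in `ℝ³` which are related by
a deformation, such that `K × I` collapses onto no copy of `L` and `L × I` collapses onto no copy
of `K`. -/
theorem result : ∃ K L : Set (Fin 3 → ℝ),
    (IsPolyhedron K ∧ IsConnected K ∧ IsTwoDimensional K) ∧
    (IsPolyhedron L ∧ IsConnected L ∧ IsTwoDimensional L) ∧
    Deformation K L ∧
    (¬ ∃ L' : Set ((Fin 3 → ℝ) × ℝ), PLHomeo L L' ∧ Collapses (K ×ˢ Icc (0 : ℝ) 1) L') ∧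
    (¬ ∃ K' : Set ((Fin 3 → ℝ) × ℝ), PLHomeo K K' ∧ Collapses (L ×ˢ Icc (0 : ℝ) 1) K') :=
  ⟨Neck pK, Neck pL,
    ⟨isPolyhedron_Neck_K, isConnected_Neck pK, isTwoDimensional_Neck pK⟩,
    ⟨isPolyhedron_Neck_L, isConnected_Neck pL, isTwoDimensional_Neck pL⟩,
    deformation_KL, no_collapse_K, no_collapse_L⟩

end Pool.Agent.Results.MP_e11f15_gt.ZeemanDisproof
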